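import Pool.Agent.H39.Aff3

namespace Pool.Agent.Results.MP_3166b2_lc.NoBorel

open Set Filter Topology TopologicalSpace MeasureTheory

/-- the Hilbert cube -/
abbrev Q : Type := ℕ → unitInterval

/-- the hyperspace of compact subsets of `Q × Q` (Vietoris topology) -/
abbrev Hyp : Type := Compacts (Q × Q)

/-- `c` is the graph of the homeomorphism `T` of the nonempty compact set `K ⊆ Q` -/
def IsCode (c : Hyp) (K : Set Q) (T : K ≃ₜ K) : Prop :=
  K.Nonempty ∧ IsCompact K ∧ (c : Set (Q × Q)) = {p | ∃ x : K, p = (x.1, (T x).1)}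

/-- every orbit is dense -/
def IsMin {K : Set Q} (T : K ≃ₜ K) : Prop :=
  ∀ x : K, Dense (range fun n : ℤ => (T.toEquiv ^ n) x)

/-- topologically distal for the distance `d` -/
def IsDistal (d : Q → Q → ℝ) {K : Set Q} (T : K ≃ₜ K) : Prop :=
  ∀ x y : K, x ≠ y → 0 < ⨅ n : ℤ, d ((T.toEquiv ^ n) x).1 ((T.toEquiv ^ n) y).1

/-- minimal distal codes -/
def MinDistal (d : Q → Q → ℝ) (c : Hyp) : Prop :=
  ∃ (K : Set Q) (T : K ≃ₜ K), IsCode c K T ∧ IsMin T ∧ IsDistal d T

/-- topological conjugacy of the coded systems -/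
def Conj (c c' : Hyp) : Prop :=
  ∃ (K : Set Q) (T : K ≃ₜ K) (L : Set Q) (S : L ≃ₜ L), IsCode c K T ∧ IsCode c' L S ∧
    ∃ h : K ≃ₜ L, ∀ x, h (T x) = S (h x)

open Pool.Agent.H39.Aff

section
variable {Z : Type} [TopologicalSpace Z] [CompactSpace Z] [Nonempty Z] {ι : Z → Q}

noncomputable def tr (hι : IsEmbedding ι) (T : Z ≃ₜ Z) : range ι ≃ₜ range ι :=
  hι.toHomeomorph.symm.trans (T.trans hι.toHomeomorph)

noncomputable def gr (hι : IsEmbedding ι) (T : Z ≃ₜ Z) : Hyp :=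
  Compacts.map (fun x => (ι x, ι (T x))) (hι.continuous.prodMk (hι.continuous.comp T.continuous)) ⊤

omit [CompactSpace Z] [Nonempty Z] in
theorem tr_apply (hι : IsEmbedding ι) (T : Z ≃ₜ Z) (x : Z) :
    tr hι T (hι.toHomeomorph x) = hι.toHomeomorph (T x) := by simp [tr]

theorem code_gr (hι : IsEmbedding ι) (T : Z ≃ₜ Z) : IsCode (gr hι T) (range ι) (tr hι T) := by
  refine ⟨range_nonempty _, isCompact_range hι.continuous, ?_⟩
  ext p
  constructor
  · rintro ⟨x, -, rfl⟩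
    exact ⟨hι.toHomeomorph x, by rw [tr_apply]; rfl⟩
  · rintro ⟨x, rfl⟩
    obtain ⟨x, rfl⟩ := hι.toHomeomorph.surjective x
    exact ⟨x, trivial, by rw [tr_apply]; rfl⟩

omit [Nonempty Z] in
theorem decode (hι : IsEmbedding ι) {T : Z ≃ₜ Z} {K : Set Q} {T' : K ≃ₜ K}
    (h : IsCode (gr hι T) K T') : ∃ e : Z ≃ₜ K, ∀ x, e (T x) = T' (e x) := by
  have h1 : ∀ x, ∃ y : K, ι x = y.1 ∧ ι (T x) = (T' y).1 := fun x => by
    obtain ⟨y, hy⟩ : (ι x, ι (T x)) ∈ {p | ∃ x : K, p = (x.1, (T' x).1)} := h.2.2 ▸ ⟨x, trivial, rfl⟩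
    exact ⟨y, Prod.mk.inj hy⟩
  have h2 : range ι = K := by
    apply Subset.antisymm
    · rintro _ ⟨x, rfl⟩
      obtain ⟨y, hy, -⟩ := h1 x
      exact hy ▸ y.2
    · intro y hy
      obtain ⟨x, -, hx⟩ : (y, (T' ⟨y, hy⟩).1) ∈ (gr hι T : Set (Q × Q)) := h.2.2 ▸ ⟨⟨y, hy⟩, rfl⟩
      exact ⟨x, congrArg Prod.fst hx⟩
  subst h2
  refine ⟨hι.toHomeomorph, fun x => Subtype.ext ?_⟩
  obtain ⟨y, hy, hy'⟩ := h1 x
  rw [show hι.toHomeomorph x = y from Subtype.ext hy]
  exact hy'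

omit [CompactSpace Z] [Nonempty Z] in
theorem tr_zpow (hι : IsEmbedding ι) (T : Z ≃ₜ Z) (n : ℤ) (x : Z) :
    ((tr hι T).toEquiv ^ n) (hι.toHomeomorph x) = hι.toHomeomorph ((T.toEquiv ^ n) x) := by
  have : Function.Semiconj hι.toHomeomorph T.toEquiv (tr hι T).toEquiv :=
    fun x => (tr_apply hι T x).symm
  induction n using Int.induction_on generalizing x with
  | zero => rfl
  | succ n ih => rw [zpow_add_one, zpow_add_one, Equiv.Perm.mul_apply, Equiv.Perm.mul_apply, ← this, ih]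
  | pred n ih =>
    rw [zpow_sub_one, zpow_sub_one, Equiv.Perm.mul_apply, Equiv.Perm.mul_apply, ← ih]
    congr 1
    rw [Equiv.Perm.inv_eq_iff_eq, ← this]
    simp

end

theorem md_gr {d : Q → Q → ℝ} (hd : Continuous fun p : Q × Q => d p.1 p.2)
    (hd' : ∀ x y, x ≠ y → 0 < d x y) {ι : K S0 → Q} (hι : IsEmbedding ι) (τ : List ℕ → Bool)
    {α : K S0} (hα : Ind α) : MinDistal d (gr hι ((dp_par τ).homeo α)) := by
  set T := (dp_par τ).homeo α with hT
  refine ⟨_, _, code_gr hι T, fun x => ?_, fun x y hxy => ?_⟩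
  · obtain ⟨x, rfl⟩ := hι.toHomeomorph.surjective x
    simp only [tr_zpow]
    refine (hι.toHomeomorph.surjective.denseRange.comp (f := fun n : ℤ => (T.toEquiv ^ n) x) ?_
      hι.toHomeomorph.continuous)
    rw [DenseRange, dense_iff_closure_eq]
    refine (dp_par τ).minimal hα isClosed_closure ⟨_, subset_closure ⟨0, rfl⟩⟩
      (MapsTo.closure ?_ (continuous_aff _ _))
    rintro _ ⟨n, rfl⟩
    exact ⟨1 + n, by simp only [zpow_one_add]; rfl⟩
  · obtain ⟨x, rfl⟩ := hι.toHomeomorph.surjective x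
    obtain ⟨y, rfl⟩ := hι.toHomeomorph.surjective y
    simp only [tr_zpow]
    obtain ⟨s, c, hc, hs⟩ := exists_Dk dep (x := x) (y := y) fun e => hxy (e ▸ rfl)
    have h1 : ∀ n : ℤ, ((T.toEquiv ^ n) x, (T.toEquiv ^ n) y) ∈ Dk dep s c := fun n => by
      induction n using Int.induction_on with
      | zero => exact hs
      | succ n ih =>
        rw [add_comm, zpow_one_add]
        exact ((dp_par τ).Dk_iff α).2 ih
      | pred n ih =>
        refine ((dp_par τ).Dk_iff α).1 ?_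
        rw [show -(n : ℤ) = 1 + (-n - 1) by ring, zpow_one_add] at ih
        exact ih
    obtain ⟨q, hq, hmin⟩ := (isClosed_Dk dep s c).isCompact.exists_isMinOn ⟨_, hs⟩
      (f := fun q => d (ι q.1) (ι q.2))
      (hd.comp ((hι.continuous.comp continuous_fst).prodMk
        (hι.continuous.comp continuous_snd))).continuousOn
    refine lt_of_lt_of_le (hd' _ _ fun e => hc ?_) (le_ciInf fun n => hmin (h1 n))
    rw [← hq.2, hι.injective e, sub_self]

theorem result (m : MetricSpace Q)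
    (hm : m.toPseudoMetricSpace.toUniformSpace.toTopologicalSpace = Pi.topologicalSpace) :
    ¬ ∃ B : Set (Hyp × Hyp), @MeasurableSet _ (borel (Hyp × Hyp)) B ∧
      ∀ c c' : Hyp, MinDistal m.dist c → MinDistal m.dist c' → ((c, c') ∈ B ↔ Conj c c') := by
  rintro ⟨B, hB, h⟩
  have hd : Continuous fun p : Q × Q => m.dist p.1 p.2 := by
    have := @continuous_dist Q m.toPseudoMetricSpace
    rw [hm] at this
    exact this
  have hd' : ∀ x y, x ≠ y → 0 < m.dist x y := fun x y => (@dist_pos Q m x y).2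
  obtain ⟨ι, hι⟩ : ∃ ι : K S0 → Q, IsEmbedding ι := by
    let := metrizableSpaceMetric (K S0)
    exact Metric.PiNatEmbed.exists_embedding_to_hilbert_cube
  obtain ⟨α, hα⟩ := exists_ind S0
  have hc : ∀ β, Continuous fun τ => gr hι ((dp_par τ).homeo β) := fun β =>
    continuous_const.compacts_map' ((hι.continuous.comp continuous_snd).prodMk
      (hι.continuous.comp (cont_aff β)))
  have h1 := ((hc α).prodMk (hc (alt α))).borel_measurable hB
  rw [← BorelSpace.measurable_eq (α := List ℕ → Bool)] at h1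
  refine not_meas_IF' (Eq.mp (congrArg _ (Set.ext fun τ => ?_)) h1)
  refine (h _ _ (md_gr hd hd' hι τ hα) (md_gr hd hd' hι τ hα.alt)).trans ⟨?_, fun hτ => ?_⟩
  · rintro ⟨K, T, L, S, h2, h3, g, hg⟩
    obtain ⟨e, he⟩ := decode hι h2
    obtain ⟨e', he'⟩ := decode hι h3
    refine branch_of_conj hα (h := fun x => e'.symm (g (e x))) (by fun_prop)
      (Eventually.of_forall fun x => ?_)
    rw [← (dp_par τ).homeo_apply, ← (dp_par τ).homeo_apply, he, hg, Homeomorph.symm_apply_eq, he',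
      Homeomorph.apply_symm_apply]
  · obtain ⟨q, d, β, h2, h3⟩ := conj_of_branch hτ α
    refine ⟨_, _, _, _, code_gr hι _, code_gr hι _, tr hι (h2.homeo β), fun x => ?_⟩
    obtain ⟨x, rfl⟩ := hι.toHomeomorph.surjective x
    simp only [tr_apply, Dp.homeo_apply, h3]

end Pool.Agent.Results.MP_3166b2_lc.NoBorel
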